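import Mathlib

set_option autoImplicit false

namespace Pool.Agent.Results.MP_ecebd1_co.GridGraphs

open Finset

/-- The set of edge sums of the labelling `f` of `G`. -/
def sumSet {V : Type} (G : SimpleGraph V) (f : V → ℤ) : Set ℤ :=
  {s | ∃ u v, G.Adj u v ∧ s = f u + f v}

/-- The set of edge differences of the labelling `f` of `G`. -/
def diffSet {V : Type} (G : SimpleGraph V) (f : V → ℤ) : Set ℤ :=
  {s | ∃ u v, G.Adj u v ∧ s = |f u - f v|}

/-- The sum index. -/
noncomputable def sm {V : Type} (G : SimpleGraph V) : ℕ :=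
  sInf {t | ∃ f : V → ℤ, Function.Injective f ∧ (sumSet G f).ncard = t}

/-- The difference index. -/
noncomputable def df {V : Type} (G : SimpleGraph V) : ℕ :=
  sInf {t | ∃ f : V → ℤ, Function.Injective f ∧ (diffSet G f).ncard = t}

/-! ### The graph -/

/-- `w = v` or `w = v + e_i`. -/
def Rel {d R : ℕ} (v w : Fin d → Fin R) : Prop :=
  w = v ∨ ∃ i, (w i).val = (v i).val + 1 ∧ ∀ j, j ≠ i → w j = v j

def Gr (d R : ℕ) : SimpleGraph ((Fin d → Fin R) × Bool) where
  Adj x y := (x.2 = false ∧ y.2 = true ∧ Rel x.1 y.1) ∨ (x.2 = true ∧ y.2 = false ∧ Rel y.1 x.1)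
  symm := ⟨by
    rintro x y (⟨h1, h2, h3⟩ | ⟨h1, h2, h3⟩)
    · exact Or.inr ⟨h2, h1, h3⟩
    · exact Or.inl ⟨h2, h1, h3⟩⟩
  loopless := ⟨by
    rintro x (⟨h1, h2, h3⟩ | ⟨h1, h2, h3⟩)
    · rw [h1] at h2; exact Bool.noConfusion h2
    · rw [h1] at h2; exact Bool.noConfusion h2⟩

noncomputable def phi {d R : ℕ} (v : Fin d → Fin R) : ℤ := ((finFunctionFinEquiv v : Fin (R ^ d)) : ℕ)

lemma phi_eq {d R : ℕ} (v : Fin d → Fin R) : phi v = ∑ i, ((v i).val : ℤ) * (R : ℤ) ^ i.val := by
  unfold phi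
  rw [finFunctionFinEquiv_apply]
  push_cast
  rfl

lemma phi_inj {d R : ℕ} {v w : Fin d → Fin R} (h : phi v = phi w) : v = w := by
  unfold phi at h
  have h1 : ((finFunctionFinEquiv v : Fin (R ^ d)) : ℕ) = (finFunctionFinEquiv w : Fin (R ^ d)) := by
    exact_mod_cast h
  exact finFunctionFinEquiv.injective (Fin.ext h1)

lemma phi_nonneg {d R : ℕ} (v : Fin d → Fin R) : 0 ≤ phi v := by
  unfold phi; positivity

lemma phi_step {d R : ℕ} {v w : Fin d → Fin R} {i : Fin d} (h1 : (w i).val = (v i).val + 1)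
    (h2 : ∀ j, j ≠ i → w j = v j) : phi w = phi v + (R : ℤ) ^ i.val := by
  rw [phi_eq, phi_eq, ← Finset.add_sum_erase _ _ (mem_univ i), ← Finset.add_sum_erase univ
    (fun i => ((v i).val : ℤ) * (R : ℤ) ^ i.val) (mem_univ i)]
  have : ∑ x ∈ univ.erase i, ((w x).val : ℤ) * (R : ℤ) ^ x.val =
      ∑ x ∈ univ.erase i, ((v x).val : ℤ) * (R : ℤ) ^ x.val := by
    apply Finset.sum_congr rfl
    intro j hj
    rw [h2 j (Finset.ne_of_mem_erase hj)]
  rw [this, h1]
  push_cast
  ring

noncomputable def lab {d R : ℕ} (x : (Fin d → Fin R) × Bool) : ℤ :=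
  if x.2 then phi x.1 else - phi x.1 - 1

lemma lab_inj {d R : ℕ} : Function.Injective (lab (d := d) (R := R)) := by
  rintro ⟨v, a⟩ ⟨w, b⟩ h
  have h1 := phi_nonneg v
  have h2 := phi_nonneg w
  cases a <;> cases b <;> simp only [lab, if_true, Bool.false_eq_true, if_false] at h
  · rw [phi_inj (by linarith : phi v = phi w)]
  · exfalso; linarith
  · exfalso; linarith
  · rw [phi_inj h]

lemma sm_le (d R : ℕ) : sm (Gr d R) ≤ d + 1 := by
  have h1 : sm (Gr d R) ≤ (sumSet (Gr d R) lab).ncard := Nat.sInf_le ⟨lab, lab_inj, rfl⟩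
  refine h1.trans ?_
  have h2 : sumSet (Gr d R) lab ⊆
      ((insert (-1 : ℤ) ((univ : Finset (Fin d)).image (fun i => (R : ℤ) ^ i.val - 1)) : Finset ℤ) : Set ℤ) := by
    rintro s ⟨⟨v, a⟩, ⟨w, b⟩, h, rfl⟩
    rw [Finset.coe_insert, Finset.coe_image]
    have key : ∀ v w : Fin d → Fin R, Rel v w → (phi w - phi v - 1 = -1 ∨
        ∃ i : Fin d, phi w - phi v - 1 = (R : ℤ) ^ i.val - 1) := by
      rintro v w (rfl | ⟨i, h1, h2⟩)
      · left; ring
      · right; exact ⟨i, by rw [phi_step h1 h2]; ring⟩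
    rcases h with ⟨h1, h2, h3⟩ | ⟨h1, h2, h3⟩
    · simp only at h1 h2 h3
      subst h1; subst h2
      have : lab (v, false) + lab (w, true) = phi w - phi v - 1 := by
        simp [lab]; ring
      rw [this]
      rcases key v w h3 with h | ⟨i, h⟩
      · left; exact h
      · right; exact ⟨i, by simp, h.symm⟩
    · simp only at h1 h2 h3
      subst h1; subst h2
      have : lab (v, true) + lab (w, false) = phi v - phi w - 1 := by
        simp [lab]; ring
      rw [this]
      rcases key w v h3 with h | ⟨i, h⟩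
      · left; exact h
      · right; exact ⟨i, by simp, h.symm⟩
  calc (sumSet (Gr d R) lab).ncard ≤ _ := Set.ncard_le_ncard h2 (Finset.finite_toSet _)
    _ = _ := Set.ncard_coe_finset _
    _ ≤ ((univ : Finset (Fin d)).image (fun i => (R : ℤ) ^ i.val - 1)).card + 1 := Finset.card_insert_le _ _
    _ ≤ (univ : Finset (Fin d)).card + 1 := Nat.add_le_add_right Finset.card_image_le _
    _ = d + 1 := by simp

/-! ### Lower bound for the difference index -/

/-- labels reachable by `ℓ` steps -/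
def Reach (D : Finset ℤ) (f0 : ℤ) (l : ℕ) : Set ℤ :=
  {x | ∃ n : ℤ → ℤ, (∀ a, |n a| ≤ l) ∧ x = f0 + ∑ a ∈ D, n a * a}

lemma reach_step {D : Finset ℤ} {f0 x y : ℤ} {l : ℕ} (hx : x ∈ Reach D f0 l) (h : |x - y| ∈ D) :
    y ∈ Reach D f0 (l + 1) := by
  classical
  obtain ⟨n, hn, rfl⟩ := hx
  set x := f0 + ∑ a ∈ D, n a * a with hxdef
  rcases le_total 0 (x - y) with h0 | h0
  · -- y = x - |x-y|
    refine ⟨fun a => n a - (if a = |x - y| then 1 else 0), ?_, ?_⟩
    · intro a
      have := hn a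
      rw [abs_le] at this ⊢
      push_cast
      split_ifs <;> constructor <;> linarith
    · have h1 : ∑ a ∈ D, (n a - (if a = |x - y| then 1 else 0)) * a = ∑ a ∈ D, n a * a - |x - y| := by
        simp only [sub_mul, ite_mul, one_mul, zero_mul, Finset.sum_sub_distrib]
        rw [Finset.sum_ite_eq' D |x - y| (fun a => a), if_pos h]
      rw [h1, abs_of_nonneg h0]
      linarith
  · refine ⟨fun a => n a + (if a = |x - y| then 1 else 0), ?_, ?_⟩
    · intro a
      have := hn a
      rw [abs_le] at this ⊢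
      push_cast
      split_ifs <;> constructor <;> linarith
    · have h1 : ∑ a ∈ D, (n a + (if a = |x - y| then 1 else 0)) * a = ∑ a ∈ D, n a * a + |x - y| := by
        simp only [add_mul, ite_mul, one_mul, zero_mul, Finset.sum_add_distrib]
        rw [Finset.sum_ite_eq' D |x - y| (fun a => a), if_pos h]
      rw [h1, abs_of_nonpos h0]
      linarith

lemma reach_mono {D : Finset ℤ} {f0 x : ℤ} {l l' : ℕ} (h : l ≤ l') (hx : x ∈ Reach D f0 l) :
    x ∈ Reach D f0 l' := by
  obtain ⟨n, hn, hx⟩ := hx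
  exact ⟨n, fun a => (hn a).trans (by exact_mod_cast h), hx⟩

lemma reach_finite_card (D : Finset ℤ) (f0 : ℤ) (l : ℕ) (S : Finset ℤ) (hS : ∀ x ∈ S, x ∈ Reach D f0 l) :
    S.card ≤ (2 * l + 1) ^ D.card := by
  classical
  have h1 : S ⊆ (Fintype.piFinset (fun _ : D => Finset.Icc (-(l : ℤ)) l)).image
      (fun n => f0 + ∑ a : D, n a * a.1) := by
    intro x hx
    obtain ⟨n, hn, hx⟩ := hS x hx
    rw [mem_image]
    refine ⟨fun a => n a.1, ?_, ?_⟩
    · rw [Fintype.mem_piFinset]
      intro a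
      rw [mem_Icc]
      exact abs_le.mp (hn a)
    · rw [hx, ← Finset.sum_coe_sort D (fun a => n a * a)]
  calc S.card ≤ _ := Finset.card_le_card h1
    _ ≤ (Fintype.piFinset (fun _ : D => Finset.Icc (-(l : ℤ)) l)).card := Finset.card_image_le
    _ = (2 * l + 1) ^ D.card := by
      rw [Fintype.card_piFinset]
      simp only [Int.card_Icc, Finset.prod_const, card_univ, Fintype.card_coe]
      congr 1
      omega

lemma lower {d R : ℕ} (hd : 1 ≤ d) (hR : 1 ≤ R) (f : (Fin d → Fin R) × Bool → ℤ)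
    (hf : Function.Injective f) : 2 * R ^ d ≤ (7 * d * R) ^ (diffSet (Gr d R) f).ncard := by
  classical
  have hfin : (diffSet (Gr d R) f).Finite := by
    apply Set.Finite.subset (Set.finite_range (fun p : ((Fin d → Fin R) × Bool) × ((Fin d → Fin R) × Bool) =>
      |f p.1 - f p.2|))
    rintro s ⟨u, v, -, rfl⟩
    exact ⟨(u, v), rfl⟩
  set D := hfin.toFinset with hD
  have hmem : ∀ u v, (Gr d R).Adj u v → |f u - f v| ∈ D := by
    intro u v h
    rw [hD, Set.Finite.mem_toFinset]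
    exact ⟨u, v, h, rfl⟩
  have hzero : 0 < R := hR
  let o : Fin d → Fin R := fun _ => ⟨0, hzero⟩
  -- labels of `(v, false)`
  have hreach : ∀ s : ℕ, ∀ v : Fin d → Fin R, ∑ i, (v i).val = s →
      f (v, false) ∈ Reach D (f (o, false)) (2 * s) := by
    intro s
    induction s with
    | zero =>
      intro v hv
      rw [Finset.sum_eq_zero_iff] at hv
      have : v = o := by
        funext i
        exact Fin.ext (hv i (mem_univ i))
      subst this
      exact ⟨fun _ => 0, fun a => by simp, by simp⟩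
    | succ s ih =>
      intro v hv
      have hex : ∃ i, (v i).val ≠ 0 := by
        by_contra hcon
        push Not at hcon
        rw [Finset.sum_eq_zero (fun i _ => hcon i)] at hv
        omega
      obtain ⟨i, hi⟩ := hex
      let v' : Fin d → Fin R := Function.update v i ⟨(v i).val - 1, by have := (v i).2; omega⟩
      have hv'i : (v' i).val = (v i).val - 1 := by simp [v']
      have hv'j : ∀ j, j ≠ i → v' j = v j := fun j hj => by simp [v', hj]
      have hsum : ∑ j, (v' j).val = s := by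
        rw [← Finset.add_sum_erase _ _ (mem_univ i)] at hv ⊢
        have : ∑ x ∈ univ.erase i, (v' x).val = ∑ x ∈ univ.erase i, (v x).val := by
          apply Finset.sum_congr rfl
          intro j hj
          rw [hv'j j (Finset.ne_of_mem_erase hj)]
        rw [this, hv'i]
        omega
      have h1 := ih v' hsum
      have h2 : (Gr d R).Adj (v', false) (v, true) := by
        left
        refine ⟨rfl, rfl, Or.inr ⟨i, ?_, fun j hj => (hv'j j hj).symm⟩⟩
        change (v i).val = (v' i).val + 1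
        rw [hv'i]; omega
      have h3 : (Gr d R).Adj (v, true) (v, false) := Or.inr ⟨rfl, rfl, Or.inl rfl⟩
      exact reach_step (reach_step h1 (hmem _ _ h2)) (hmem _ _ h3)
  have hsumle : ∀ v : Fin d → Fin R, ∑ i, (v i).val ≤ d * R := by
    intro v
    calc ∑ i, (v i).val ≤ ∑ _i : Fin d, R := Finset.sum_le_sum (fun i _ => (v i).2.le)
      _ = d * R := by simp
  have hall : ∀ x, f x ∈ Reach D (f (o, false)) (2 * (d * R) + 1) := by
    rintro ⟨v, b⟩
    have h1 := hreach _ v rfl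
    cases b
    · exact reach_mono (by have := hsumle v; omega) h1
    · have h3 : (Gr d R).Adj (v, false) (v, true) := Or.inl ⟨rfl, rfl, Or.inl rfl⟩
      exact reach_mono (by have := hsumle v; omega) (reach_step h1 (hmem _ _ h3))
  have hcard := reach_finite_card D (f (o, false)) (2 * (d * R) + 1) (univ.image f) (by
    intro x hx
    rw [mem_image] at hx
    obtain ⟨y, -, rfl⟩ := hx
    exact hall y)
  rw [Finset.card_image_of_injective _ hf] at hcard
  have hV : (univ : Finset ((Fin d → Fin R) × Bool)).card = 2 * R ^ d := by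
    simp; ring
  rw [hV] at hcard
  have hDc : D.card = (diffSet (Gr d R) f).ncard := by
    rw [Set.ncard_eq_toFinset_card _ hfin]
  rw [hDc] at hcard
  refine hcard.trans (Nat.pow_le_pow_left ?_ _)
  have : 1 ≤ d * R := Nat.mul_pos hd hR
  nlinarith

lemma df_ge {d : ℕ} (hd : 1 ≤ d) : d ≤ df (Gr d ((7 * d) ^ d)) := by
  have hR : 1 ≤ (7 * d) ^ d := Nat.one_le_pow _ _ (by omega)
  set R := (7 * d) ^ d with hRdef
  apply le_csInf
  · exact ⟨_, lab, lab_inj, rfl⟩
  · rintro t ⟨f, hf, rfl⟩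
    have h1 := lower hd hR f hf
    by_contra hcon
    push Not at hcon
    have h2 : (7 * d * R) ^ (diffSet (Gr d R) f).ncard ≤ (7 * d * R) ^ (d - 1) :=
      Nat.pow_le_pow_right (Nat.mul_pos (by omega) hR) (by omega)
    have h3 : (7 * d * R) ^ (d - 1) ≤ R ^ d := by
      rw [mul_pow]
      calc (7 * d) ^ (d - 1) * R ^ (d - 1) ≤ R * R ^ (d - 1) := by
            apply Nat.mul_le_mul_right
            rw [hRdef]
            exact Nat.pow_le_pow_right (by omega) (by omega)
        _ = R ^ d := by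
            rw [← pow_succ']
            congr 1
            omega
    have h4 : 0 < R ^ d := Nat.pow_pos hR
    omega

/-- For every `d ≥ 1` there is a bipartite graph with `sm(G) ≤ d + 1` and `df(G) ≥ d`; in particular
`df(G) - ⌈sm(G)/2⌉` is unbounded over bipartite graphs. -/
theorem result :
    (∀ d : ℕ, 1 ≤ d → ∃ (V : Type) (_ : Fintype V) (G : SimpleGraph V),
      (∃ c : V → Bool, ∀ u v, G.Adj u v → c u ≠ c v) ∧ (∃ u v, G.Adj u v) ∧
      sm G ≤ d + 1 ∧ d ≤ df G) ∧
    (∀ k : ℕ, ∃ (V : Type) (_ : Fintype V) (G : SimpleGraph V),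
      (∃ c : V → Bool, ∀ u v, G.Adj u v → c u ≠ c v) ∧ (∃ u v, G.Adj u v) ∧
      (k : ℤ) ≤ (df G : ℤ) - ⌈(sm G : ℚ) / 2⌉) := by
  have key : ∀ d : ℕ, 1 ≤ d → ∃ (V : Type) (_ : Fintype V) (G : SimpleGraph V),
      (∃ c : V → Bool, ∀ u v, G.Adj u v → c u ≠ c v) ∧ (∃ u v, G.Adj u v) ∧
      sm G ≤ d + 1 ∧ d ≤ df G := by
    intro d hd
    refine ⟨_, inferInstance, Gr d ((7 * d) ^ d), ⟨fun x => x.2, ?_⟩, ?_, sm_le _ _, df_ge hd⟩
    · rintro u v (⟨h1, h2, _⟩ | ⟨h1, h2, _⟩) <;> simp [h1, h2]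
    · have hR : 0 < (7 * d) ^ d := Nat.pow_pos (by omega)
      exact ⟨(fun _ => ⟨0, hR⟩, false), (fun _ => ⟨0, hR⟩, true), Or.inl ⟨rfl, rfl, Or.inl rfl⟩⟩
  refine ⟨key, ?_⟩
  intro k
  obtain ⟨V, hV, G, h1, h2, h3, h4⟩ := key (2 * k + 2) (by omega)
  refine ⟨V, hV, G, h1, h2, ?_⟩
  have h5 : ⌈(sm G : ℚ) / 2⌉ ≤ (k : ℤ) + 2 := by
    rw [Int.ceil_le]
    push_cast
    have : (sm G : ℚ) ≤ 2 * k + 2 + 1 := by exact_mod_cast h3
    linarith
  have h6 : ((2 * k + 2 : ℕ) : ℤ) ≤ df G := by exact_mod_cast h4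
  push_cast at h6
  linarith

end Pool.Agent.Results.MP_ecebd1_co.GridGraphs
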